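import Pool.Agent.H332.HT.Defs

set_option autoImplicit false

namespace Pool.Agent.H387.HT

open Pool.Agent.H332.HT

theorem gpt (hP : S_P) (hik : S_IntK) : S_gpt := by
  intro K hK q hq t hnf
  obtain ⟨-, -, -, h0, -, -, -⟩ := hP K hK
  -- the fibre
  obtain ⟨F, hF⟩ : ∃ F : Set ℝ, ∀ z, z ∈ F ↔ ((q t, z) : V3) ∈ K := ⟨{z | ((q t, z) : V3) ∈ K},
    fun z => Iff.rfl⟩
  have hFc : IsClosed F := by
    have e : F = (fun z : ℝ => ((q t, z) : V3)) ⁻¹' K := by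
      ext z
      exact hF z
    rw [e]
    exact hK.cpt.isClosed.preimage (by fun_prop)
  have hFne : F.Nonempty := by
    obtain ⟨⟨p, z⟩, hx, hxq⟩ := hq.mem t
    refine ⟨z, (hF z).2 ?_⟩
    have : p = q t := hxq
    rw [← this]
    exact hx
  have hle : ∀ z ∈ F, |z| ≤ 1 := fun z hz => hK.ht _ _ ((hF z).1 hz)
  have hbb : BddBelow F := ⟨-1, fun z hz => (abs_le.1 (hle z hz)).1⟩
  have hba : BddAbove F := ⟨1, fun z hz => (abs_le.1 (hle z hz)).2⟩
  have hlo : sInf F ∈ F := hFc.csInf_mem hFne hbb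
  have hhi : sSup F ∈ F := hFc.csSup_mem hFne hba
  have hlt : sSup F - sInf F < 2 := by
    have h1 := abs_le.1 (hle _ hlo)
    have h2 := abs_le.1 (hle _ hhi)
    by_contra hcon
    rw [not_lt] at hcon
    have h3 : sSup F = 1 := by linarith [h1.1, h2.2]
    have h4 : sInf F = -1 := by linarith [h1.1, h2.2]
    exact hnf ⟨(hF 1).1 (h3 ▸ hhi), (hF (-1)).1 (h4 ▸ hlo)⟩
  refine ⟨(-q t, -((sInf F + sSup F) / 2)), fun s hs1 hs2 z hz => ?_⟩
  have hst : s = t := le_antisymm hs2 hs1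
  subst hst
  have hzF : z ∈ F := (hF z).2 hz
  have h1 : sInf F ≤ z := csInf_le hbb hzF
  have h2 : z ≤ sSup F := le_csSup hba hzF
  refine ⟨1, one_pos, ?_⟩
  have e : ((q s, z) : V3) + (1 : ℝ) • ((-q s, -((sInf F + sSup F) / 2)) : V3) =
      ((0, z - (sInf F + sSup F) / 2) : V3) := by
    rw [one_smul, Prod.mk_add_mk, add_neg_cancel, ← sub_eq_add_neg]
  rw [e]
  exact hik K hK 0 (-1) (z - (sInf F + sSup F) / 2) 1 h0 hK.S hK.N (by linarith) (by linarith)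

end Pool.Agent.H387.HT
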